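import Pool.Agent.H23.RG.Asm2

/-!
# Rigid components of sparse random graphs

For every `d ≥ 2` we prove part (a) of the conjecture on d-rigid components of `G(n, c/n)` (below the
d-orientability threshold there is a.a.s. no d-rigid vertex set with more than 3 vertices), part (b)
for all large `c`, and reduce part (b) in general to the rigidity of the `((d+1)+d)`-core `Ĉ`:

* for every `c > 0` there is `ε > 0` such that a.a.s. every d-rigid vertex set has at most 3 vertices,
  or it has more than `ε n` vertices and is contained in `Ĉ`;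
* above the threshold a.a.s. `|Ĉ| ≥ ε n`;
* above the threshold part (b) holds if and only if `Ĉ` is a.a.s. rigid; and then a.a.s. `Ĉ` is the
  only d-rigid component with more than 3 vertices;
* there is `c₀(d)` such that this is the case for all `c ≥ c₀(d)`.

Ideas: first moments for small sets; sprinkling (a linear rigid set has at least `d |S| - d (d+1) / 2`
edges, so that a few more random edges would destroy d-orientability); peeling vertices of degree at
most `d` off a rigid set, which keeps it rigid and must stop at a set of minimum degree at least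
`d + 1` since sizes between 4 and `ε n` do not occur; by the dimension of the space of trivial motions
every vertex of a rigid set has degree at least `d` in it, so that the peeled vertices lie in `Ĉ`.
For large `c`: a strong rigid partition of almost all vertices gives a rigid set with at least
`(1 - η) n` vertices; let `A` be the component containing it. The vertices of the `(d+1)`-core outside
`A` form disjoint cycles, each vertex having exactly `d - 1` neighbours in `A` (a first moment bound
for sets whose vertices have fewer than `d` neighbours outside the set), and adding such a cycle to a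
rigid set gives a rigid set unless all its vertices have the same neighbours in `A`.

The definitions (`P`, `RM`, `Rig`, `Hat`, `Sparse`, `hatF`, `Comp`, `AAS`) are in
`Pool/Agent/H23/RG/Stm.lean` and `Pool/Agent/H23/RG/FIN.lean`.
-/

set_option autoImplicit false
open Classical Filter
open Pool.Agent.H23.RG

namespace Pool.Agent.Results.MP_264ef2_co.RigidComponents

/-- `cd / n` is the sharp threshold for d-orientability of `G(n, p)` (`Sparse d G`: no vertex set `S`
spans more than `d |S|` edges, which is equivalent to d-orientability). -/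
def IsThreshold (d : ℕ) (cd : ℝ) : Prop :=
  0 < cd ∧
  (∀ c : ℝ, 0 < c → c < cd → AAS c (fun _ G => Sparse d G)) ∧
  (∀ c : ℝ, cd < c →
    Tendsto (fun n : ℕ => P n (c / (n : ℝ)) (fun G => Sparse d G)) atTop (nhds 0))

/-- Part (b) of Q1 at the density `c`: the `((d+1)+d)`-core is a.a.s. a d-rigid component, it has
a.a.s. at least `ε n` vertices for some `ε > 0`, and for every `δ > 0` a.a.s. every other d-rigid
component has fewer than `δ n` vertices. -/
def PartB (d : ℕ) (c : ℝ) : Prop :=
  AAS c (fun _ G => Comp d G (hatF d G)) ∧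
  (∃ ε : ℝ, 0 < ε ∧ AAS c (fun n G => ε * (n : ℝ) ≤ ((hatF d G).card : ℝ))) ∧
  (∀ δ : ℝ, 0 < δ → AAS c (fun n G => ∀ S : Finset (Fin n), Comp d G S →
    S ≠ hatF d G → (S.card : ℝ) < δ * (n : ℝ)))

theorem partB_of (d : ℕ) (hd : 2 ≤ d) (c : ℝ) (hc : 0 < c)
    (h5 : ∃ ε : ℝ, 0 < ε ∧ AAS c (fun n G => ε * (n : ℝ) ≤ ((hatF d G).card : ℝ)))
    (hr : AAS c (fun n G => Rig d G (hatF d G))) : PartB d c := by
  have key := T4 d c hd hc h5 hr
  refine ⟨?_, h5, ?_⟩
  · exact AAS_mono hc _ _ (Eventually.of_forall fun n G hG => hG.1) key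
  · intro δ hδ
    refine AAS_mono hc _ _ ?_ key
    obtain ⟨N, hN⟩ := exists_nat_gt (3 / δ)
    filter_upwards [eventually_ge_atTop N] with n hn G hG S hS hne
    have h6 : (S.card : ℝ) ≤ 3 := by exact_mod_cast hG.2 S hS hne
    have h7 : 3 / δ < (n : ℝ) := lt_of_lt_of_le hN (by exact_mod_cast hn)
    rw [div_lt_iff₀ hδ] at h7
    linarith

/-- **Rigid components of `G(n, c/n)` in every dimension `d ≥ 2`.** -/
theorem result (d : ℕ) (hd : 2 ≤ d) :
    -- at every density: rigid sets are tiny or giant, and the giant ones are inside the core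
    (∀ c : ℝ, 0 < c → ∃ ε : ℝ, 0 < ε ∧ AAS c (fun n G => ∀ S : Finset (Fin n), Rig d G S →
      S.card ≤ 3 ∨ (ε * (n : ℝ) < (S.card : ℝ) ∧ S ⊆ hatF d G))) ∧
    -- if `G(n, c'/n)` is a.a.s. d-orientable then there is no rigid set with more than 3 vertices in
    -- `G(n, c/n)` for all `c < c'`
    (∀ c c' : ℝ, 0 < c → c < c' → AAS c' (fun _ G => Sparse d G) →
      AAS c (fun n G => ∀ S : Finset (Fin n), Rig d G S → S.card ≤ 3)) ∧
    -- part (b) of Q1 for all large densities; the core is the only component with > 3 vertices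
    (∃ c₀ : ℝ, 0 < c₀ ∧ ∀ c : ℝ, c₀ ≤ c → PartB d c ∧
      AAS c (fun n G => Comp d G (hatF d G) ∧
        ∀ S : Finset (Fin n), Comp d G S → S ≠ hatF d G → S.card ≤ 3)) ∧
    (∀ cd : ℝ, IsThreshold d cd →
      -- part (a) of Q1
      (∀ c : ℝ, 0 < c → c < cd →
        AAS c (fun n G => ∀ S : Finset (Fin n), Rig d G S → S.card ≤ 3)) ∧
      (∀ c : ℝ, cd < c →
        -- the core has linear size
        (∃ ε : ℝ, 0 < ε ∧ AAS c (fun n G => ε * (n : ℝ) ≤ ((hatF d G).card : ℝ))) ∧
        -- part (b) of Q1 at the density `c` says exactly that the core is a.a.s. rigid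
        (PartB d c ↔ AAS c (fun _ G => Rig d G (hatF d G))) ∧
        -- and then the core is the only component with more than 3 vertices
        (PartB d c → AAS c (fun n G => Comp d G (hatF d G) ∧
          ∀ S : Finset (Fin n), Comp d G S → S ≠ hatF d G → S.card ≤ 3)))) := by
  have hB1 : ∀ c : ℝ, 0 < c → PartB d c → AAS c (fun _ G => Rig d G (hatF d G)) :=
    fun c hc hB => AAS_mono hc _ _ (Eventually.of_forall fun n G hG => hG.1) hB.1
  refine ⟨fun c hc => T1 d c hd hc, fun c c' hc hcc h => T2 d c c' hd hc hcc h, ?_, ?_⟩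
  · obtain ⟨c₀, hc₀, h⟩ := T5 d hd
    refine ⟨c₀, hc₀, fun c hc => ?_⟩
    have hc0 : 0 < c := lt_of_lt_of_le hc₀ hc
    obtain ⟨h5, hr⟩ := h c hc
    exact ⟨partB_of d hd c hc0 h5 hr, T4 d c hd hc0 h5 hr⟩
  rintro cd ⟨hcd, hb, ha⟩
  refine ⟨?_, ?_⟩
  · intro c hc hcc
    exact T2 d c ((c + cd) / 2) hd hc (by linarith) (hb _ (by linarith) (by linarith))
  · intro c hcc
    have hc : 0 < c := lt_trans hcd hcc
    have h5 := T3 d c hd hc (ha c hcc)
    exact ⟨h5, ⟨hB1 c hc, fun hr => partB_of d hd c hc h5 hr⟩,
      fun hB => T4 d c hd hc h5 (hB1 c hc hB)⟩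

end Pool.Agent.Results.MP_264ef2_co.RigidComponents
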